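import Pool.Agent.H751R2.LHY.Defs

set_option autoImplicit false

open MeasureTheory UnitAddTorus
open scoped ComplexConjugate ENNReal

namespace Pool.Agent.H751R2.LHY

noncomputable section

theorem mem_boxM' {R : ℕ} {n : Mom} : n ∈ boxM R ↔ ∀ a, -(R : ℤ) ≤ n a ∧ n a ≤ R := by
  simp only [boxM, Fintype.mem_piFinset, Finset.mem_Icc]

theorem card_boxM' (R : ℕ) : (boxM R).card = (2 * R + 1) ^ 3 := by
  rw [boxM, Fintype.card_piFinset]
  simp only [Int.card_Icc, Finset.prod_const, Finset.card_univ, Fintype.card_fin]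
  congr 1
  omega

theorem boxM_mono' {R S : ℕ} (h : R ≤ S) : boxM R ⊆ boxM S := by
  intro n hn
  rw [mem_boxM'] at hn ⊢
  intro a
  have := hn a
  have h' : (R : ℤ) ≤ S := by exact_mod_cast h
  constructor <;> linarith [this.1, this.2]

theorem zero_mem_boxM' (R : ℕ) : (0 : Mom) ∈ boxM R := by
  rw [mem_boxM']
  intro a
  simp

theorem sq_nonneg' (n : Mom) : 0 ≤ sq n := Finset.sum_nonneg fun _ _ => sq_nonneg _

/-- outside the box of size `R` -/
theorem sq_ge' {R : ℕ} {n : Mom} (h : n ∉ boxM R) : ((R : ℝ) + 1) ^ 2 ≤ sq n := by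
  rw [mem_boxM'] at h
  push Not at h
  obtain ⟨a, ha⟩ := h
  have h1 : ((R : ℤ) + 1) ≤ |n a| := by
    by_cases h2 : -(R : ℤ) ≤ n a
    · have := ha h2
      have h3 := le_abs_self (n a)
      omega
    · have h3 := neg_abs_le (n a)
      omega
  have h2 : ((R : ℝ) + 1) ≤ |(n a : ℝ)| := by
    have : (((R : ℤ) + 1 : ℤ) : ℝ) ≤ ((|n a| : ℤ) : ℝ) := by exact_mod_cast h1
    push_cast at this
    exact this
  have h3 : ((R : ℝ) + 1) ^ 2 ≤ (n a : ℝ) ^ 2 := by
    rw [← sq_abs (n a : ℝ)]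
    exact pow_le_pow_left₀ (by positivity) h2 2
  refine h3.trans ?_
  exact Finset.single_le_sum (f := fun a => (n a : ℝ) ^ 2) (fun _ _ => sq_nonneg _) (Finset.mem_univ a)

/-- inside the box of size `R` -/
theorem sq_le' {R : ℕ} {n : Mom} (h : n ∈ boxM R) : sq n ≤ 3 * (R : ℝ) ^ 2 := by
  rw [mem_boxM'] at h
  have h1 : ∀ a, (n a : ℝ) ^ 2 ≤ (R : ℝ) ^ 2 := by
    intro a
    have := h a
    have h2 : (-(R : ℝ)) ≤ n a := by exact_mod_cast this.1
    have h3 : (n a : ℝ) ≤ R := by exact_mod_cast this.2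
    exact sq_le_sq' h2 h3
  calc sq n ≤ ∑ _a : Fin 3, (R : ℝ) ^ 2 := Finset.sum_le_sum fun a _ => h1 a
    _ = _ := by simp

theorem shell_card (R : ℕ) : (((boxM (R + 1)) \ (boxM R)).card : ℝ) ≤ 26 * ((R : ℝ) + 1) ^ 2 := by
  rw [Finset.card_sdiff_of_subset (boxM_mono' (Nat.le_succ R)), card_boxM', card_boxM']
  have h1 : (2 * R + 1) ^ 3 ≤ (2 * (R + 1) + 1) ^ 3 := Nat.pow_le_pow_left (by omega) 3
  rw [Nat.cast_sub h1]
  push_cast
  nlinarith [(Nat.cast_nonneg R : (0 : ℝ) ≤ R)]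

theorem low_sum (R : ℕ) (F : Finset Mom) (hF : F ⊆ (boxM R).erase 0) :
    ∑ n ∈ F, 1 / sq n ≤ 26 * R := by
  have h0 : ∑ n ∈ F, 1 / sq n ≤ ∑ n ∈ (boxM R).erase 0, 1 / sq n :=
    Finset.sum_le_sum_of_subset_of_nonneg hF fun n _ _ => div_nonneg zero_le_one (sq_nonneg' n)
  refine h0.trans ?_
  clear h0 hF F
  induction R with
  | zero =>
    have : (boxM 0).erase 0 = ∅ := by
      apply Finset.eq_empty_of_forall_notMem
      intro n hn
      rw [Finset.mem_erase, mem_boxM'] at hn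
      apply hn.1
      funext a
      have := hn.2 a
      simp at this
      simp
      omega
    rw [this]
    simp
  | succ R ih =>
    have h1 : (boxM (R + 1)).erase 0 = (boxM R).erase 0 ∪ (boxM (R + 1) \ boxM R) := by
      ext n
      simp only [Finset.mem_erase, Finset.mem_union, Finset.mem_sdiff]
      constructor
      · rintro ⟨h, h'⟩
        by_cases h2 : n ∈ boxM R
        · exact Or.inl ⟨h, h2⟩
        · exact Or.inr ⟨h', h2⟩
      · rintro (⟨h, h'⟩ | ⟨h, h'⟩)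
        · exact ⟨h, boxM_mono' (Nat.le_succ R) h'⟩
        · refine ⟨?_, h⟩
          rintro rfl
          exact h' (zero_mem_boxM' R)
    have h2 : Disjoint ((boxM R).erase 0) (boxM (R + 1) \ boxM R) := by
      rw [Finset.disjoint_left]
      intro n hn hn'
      exact (Finset.mem_sdiff.1 hn').2 (Finset.mem_erase.1 hn).2
    rw [h1, Finset.sum_union h2]
    have h3 : ∑ n ∈ boxM (R + 1) \ boxM R, 1 / sq n ≤ 26 := by
      have hp : (0 : ℝ) < ((R : ℝ) + 1) ^ 2 := by positivity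
      calc ∑ n ∈ boxM (R + 1) \ boxM R, 1 / sq n
          ≤ ∑ _n ∈ boxM (R + 1) \ boxM R, 1 / ((R : ℝ) + 1) ^ 2 := by
            apply Finset.sum_le_sum
            intro n hn
            exact one_div_le_one_div_of_le hp (sq_ge' (Finset.mem_sdiff.1 hn).2)
        _ = ((boxM (R + 1) \ boxM R).card : ℝ) * (1 / ((R : ℝ) + 1) ^ 2) := by
            rw [Finset.sum_const, nsmul_eq_mul]
        _ ≤ (26 * ((R : ℝ) + 1) ^ 2) * (1 / ((R : ℝ) + 1) ^ 2) :=
            mul_le_mul_of_nonneg_right (shell_card R) (by positivity)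
        _ = 26 := by field_simp
    push_cast
    linarith

theorem tail_aux (t : ℝ) (ht : 1 ≤ t) (R : ℕ) :
    (3 * (R : ℝ) ^ 2 ≤ t ^ 2 → ∑ n ∈ (boxM R).filter (fun n => t ^ 2 < sq n), 1 / sq n ^ 2 = 0) ∧
    (t ^ 2 < 3 * (R : ℝ) ^ 2 → ∑ n ∈ (boxM R).filter (fun n => t ^ 2 < sq n), 1 / sq n ^ 2 ≤
      52 * (2 / t - 1 / ((R : ℝ) + 1))) := by
  have hA : ∀ R : ℕ, 3 * (R : ℝ) ^ 2 ≤ t ^ 2 →
      ∑ n ∈ (boxM R).filter (fun n => t ^ 2 < sq n), 1 / sq n ^ 2 = 0 := by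
    intro R h
    have : (boxM R).filter (fun n => t ^ 2 < sq n) = ∅ := by
      apply Finset.eq_empty_of_forall_notMem
      intro n hn
      rw [Finset.mem_filter] at hn
      have := sq_le' hn.1
      linarith [hn.2]
    rw [this, Finset.sum_empty]
  refine ⟨hA R, ?_⟩
  induction R with
  | zero =>
    intro h
    have : 0 < t ^ 2 := by positivity
    simp at h
    linarith
  | succ R ih =>
    intro h
    set j : ℝ := (R : ℝ) + 1 with hj
    have hj1 : 1 ≤ j := by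
      rw [hj]; linarith [(Nat.cast_nonneg R : (0 : ℝ) ≤ R)]
    have h1 : (boxM (R + 1)).filter (fun n => t ^ 2 < sq n) ⊆
        (boxM R).filter (fun n => t ^ 2 < sq n) ∪ (boxM (R + 1) \ boxM R) := by
      intro n
      simp only [Finset.mem_filter, Finset.mem_union, Finset.mem_sdiff]
      rintro ⟨h, h'⟩
      by_cases h2 : n ∈ boxM R
      · exact Or.inl ⟨h2, h'⟩
      · exact Or.inr ⟨h, h2⟩
    have hnn : ∀ n : Mom, 0 ≤ 1 / sq n ^ 2 := fun n => by positivity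
    have h2 : ∑ n ∈ (boxM (R + 1)).filter (fun n => t ^ 2 < sq n), 1 / sq n ^ 2 ≤
        (∑ n ∈ (boxM R).filter (fun n => t ^ 2 < sq n), 1 / sq n ^ 2) +
        ∑ n ∈ boxM (R + 1) \ boxM R, 1 / sq n ^ 2 := by
      refine (Finset.sum_le_sum_of_subset_of_nonneg h1 fun n _ _ => hnn n).trans ?_
      refine le_of_le_of_eq (le_add_of_nonneg_right ?_)
        (Finset.sum_union_inter (s₁ := (boxM R).filter (fun n => t ^ 2 < sq n))
          (s₂ := boxM (R + 1) \ boxM R) (f := fun n => 1 / sq n ^ 2))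
      exact Finset.sum_nonneg fun n _ => hnn n
    have h3 : ∑ n ∈ boxM (R + 1) \ boxM R, 1 / sq n ^ 2 ≤ 26 / j ^ 2 := by
      have hp : (0 : ℝ) < j ^ 2 := by positivity
      calc ∑ n ∈ boxM (R + 1) \ boxM R, 1 / sq n ^ 2
          ≤ ∑ _n ∈ boxM (R + 1) \ boxM R, 1 / (j ^ 2) ^ 2 := by
            apply Finset.sum_le_sum
            intro n hn
            apply one_div_le_one_div_of_le (by positivity)
            exact pow_le_pow_left₀ hp.le (sq_ge' (Finset.mem_sdiff.1 hn).2) 2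
        _ = ((boxM (R + 1) \ boxM R).card : ℝ) * (1 / (j ^ 2) ^ 2) := by
            rw [Finset.sum_const, nsmul_eq_mul]
        _ ≤ (26 * j ^ 2) * (1 / (j ^ 2) ^ 2) :=
            mul_le_mul_of_nonneg_right (shell_card R) (by positivity)
        _ = 26 / j ^ 2 := by field_simp
    have h4 : 26 / j ^ 2 ≤ 52 * (1 / j - 1 / (j + 1)) := by
      have e : 52 * (1 / j - 1 / (j + 1)) - 26 / j ^ 2 = 26 * (j - 1) / (j ^ 2 * (j + 1)) := by
        field_simp
        ring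
      have : 0 ≤ 26 * (j - 1) / (j ^ 2 * (j + 1)) := by
        apply div_nonneg
        · linarith
        · positivity
      linarith
    have hcast : (((R + 1 : ℕ) : ℝ)) = j := by push_cast; rfl
    rw [hcast] at h ⊢
    by_cases h5 : t ^ 2 < 3 * (R : ℝ) ^ 2
    · have := ih h5
      linarith
    · have h6 := hA R (not_lt.1 h5)
      have h7 : t ≤ 2 * j := by
        by_contra hcon
        push Not at hcon
        nlinarith
      have h8 : 1 / j ≤ 2 / t := by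
        rw [div_le_div_iff₀ (by linarith) (by linarith)]
        linarith
      linarith

theorem tail_sum : ∃ C : ℝ, 0 < C ∧ ∀ (t : ℝ), 1 ≤ t → ∀ F : Finset Mom,
    (∀ n ∈ F, t ^ 2 < sq n) → ∑ n ∈ F, 1 / sq n ^ 2 ≤ C / t := by
  refine ⟨104, by norm_num, fun t ht F hF => ?_⟩
  -- a large box
  obtain ⟨R, hR⟩ : ∃ R : ℕ, F ⊆ boxM R := by
    refine ⟨∑ n ∈ F, ∑ a, (n a).natAbs, fun n hn => ?_⟩
    rw [mem_boxM']
    intro a
    have h1 : (n a).natAbs ≤ ∑ n ∈ F, ∑ a, (n a).natAbs :=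
      (Finset.single_le_sum (f := fun a => (n a).natAbs) (fun _ _ => Nat.zero_le _)
        (Finset.mem_univ a)).trans
        (Finset.single_le_sum (f := fun n : Mom => ∑ a, (n a).natAbs) (fun _ _ => Nat.zero_le _) hn)
    omega
  have h1 : ∑ n ∈ F, 1 / sq n ^ 2 ≤
      ∑ n ∈ (boxM R).filter (fun n => t ^ 2 < sq n), 1 / sq n ^ 2 := by
    apply Finset.sum_le_sum_of_subset_of_nonneg
    · intro n hn
      exact Finset.mem_filter.2 ⟨hR hn, hF n hn⟩
    · intro n _ _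
      positivity
  refine h1.trans ?_
  have h2 := tail_aux t ht R
  by_cases h3 : t ^ 2 < 3 * (R : ℝ) ^ 2
  · refine (h2.2 h3).trans ?_
    have : 0 ≤ 1 / ((R : ℝ) + 1) := by positivity
    have e : (104 : ℝ) / t = 52 * (2 / t) := by ring
    rw [e]
    linarith
  · rw [h2.1 (not_lt.1 h3)]
    positivity

theorem count_ge (t : ℝ) (ht : 2 ≤ t) (R : ℕ) (hR : t ≤ R) :
    t ^ 3 / 27 ≤ ((((boxM R).erase 0).filter (fun n => sq n ≤ t ^ 2)).card : ℝ) := by
  have hs : (0 : ℝ) < Real.sqrt 3 := by positivity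
  have hss : Real.sqrt 3 ^ 2 = 3 := Real.sq_sqrt (by norm_num)
  have hs2 : Real.sqrt 3 < 1.733 := by
    rw [Real.sqrt_lt' (by norm_num)]
    norm_num
  set k : ℕ := ⌊t / Real.sqrt 3⌋₊ with hk
  have hk1 : (k : ℝ) ≤ t / Real.sqrt 3 := Nat.floor_le (by positivity)
  have hk2 : t / Real.sqrt 3 < k + 1 := Nat.lt_floor_add_one _
  have hk3 : 3 * (k : ℝ) ^ 2 ≤ t ^ 2 := by
    have h1 : (k : ℝ) * Real.sqrt 3 ≤ t := by
      rwa [le_div_iff₀ hs] at hk1
    have h2 : ((k : ℝ) * Real.sqrt 3) ^ 2 ≤ t ^ 2 := pow_le_pow_left₀ (by positivity) h1 2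
    rw [mul_pow, hss] at h2
    linarith
  have hk4 : 0.65 * t ≤ 2 * (k : ℝ) + 1 := by
    have h1 : t < (k + 1) * Real.sqrt 3 := by
      rwa [div_lt_iff₀ hs] at hk2
    have h2 : (k + 1) * Real.sqrt 3 ≤ ((k : ℝ) + 1) * 1.733 :=
      mul_le_mul_of_nonneg_left hs2.le (by positivity)
    linarith
  have hkR : k ≤ R := by
    have h1 : (k : ℝ) ≤ R := by
      have h2 : (k : ℝ) ^ 2 ≤ t ^ 2 := by nlinarith [sq_nonneg (k : ℝ)]
      have h3 : (k : ℝ) ≤ t := by
        by_contra hcon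
        push Not at hcon
        nlinarith
      linarith
    exact_mod_cast h1
  have hsub : (boxM k).erase 0 ⊆ ((boxM R).erase 0).filter (fun n => sq n ≤ t ^ 2) := by
    intro n hn
    rw [Finset.mem_erase] at hn
    rw [Finset.mem_filter, Finset.mem_erase]
    exact ⟨⟨hn.1, boxM_mono' hkR hn.2⟩, (sq_le' hn.2).trans hk3⟩
  have hcard := Finset.card_le_card hsub
  rw [Finset.card_erase_of_mem (zero_mem_boxM' k), card_boxM'] at hcard
  have h5 : ((2 * (k : ℝ) + 1) ^ 3 - 1) ≤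
      ((((boxM R).erase 0).filter (fun n => sq n ≤ t ^ 2)).card : ℝ) := by
    have h6 : (((2 * k + 1) ^ 3 - 1 : ℕ) : ℝ) = (2 * (k : ℝ) + 1) ^ 3 - 1 := by
      rw [Nat.cast_sub (Nat.one_le_pow _ _ (by omega))]
      push_cast
      ring
    rw [← h6]
    exact_mod_cast hcard
  refine le_trans ?_ h5
  have h7 : (0.65 * t) ^ 3 ≤ (2 * (k : ℝ) + 1) ^ 3 := pow_le_pow_left₀ (by positivity) hk4 3
  have h8 : 8 ≤ t ^ 3 := by
    have := pow_le_pow_left₀ (by norm_num : (0 : ℝ) ≤ 2) ht 3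
    linarith
  have h9 : (0.65 * t) ^ 3 = 0.274625 * t ^ 3 := by ring
  rw [h9] at h7
  linarith

end

end Pool.Agent.H751R2.LHY
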